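import Mathlib

namespace Pool.Agent.NearTrans

open Subgroup

/-- Squaring is injective in a finite group of odd order. -/
theorem sq_inj {G : Type*} [Group G] (hodd : Odd (Nat.card G)) {x y : G}
    (h : x * x = y * y) : x = y := by
  obtain ⟨m, hm⟩ := hodd
  have key : ∀ z : G, (z * z) ^ (m + 1) = z := by
    intro z
    rw [← pow_two, ← pow_mul, show 2 * (m + 1) = (2 * m + 1) + 1 by ring, ← hm, pow_succ,
      pow_card_eq_one', one_mul]
  rw [← key x, ← key y, h]

/-- The trade lemma. -/
theorem trade {G : Type*} [Group G] [Finite G] (hodd : Odd (Nat.card G)) (K : Subgroup G)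
    [K.Normal] (v : G ⧸ K) (hv : ∀ i : G ⧸ K, ∃ n : ℕ, v ^ n = i) (r c : G ⧸ K → G)
    (hr : ∀ i, (QuotientGroup.mk (r i) : G ⧸ K) = i)
    (hc : ∀ i, (QuotientGroup.mk (c i) : G ⧸ K) = i)
    (h1 : ∀ j, j ≠ v⁻¹ → r (j * v⁻¹) * c (j * v) = r j * c j)
    (h2 : r (v⁻¹ * v⁻¹) * c 1 ≠ r v⁻¹ * c v⁻¹) :
    ∃ (θ : Equiv.Perm G) (p : G), ∀ g, (∃ x, x * θ x = g) ↔ g ≠ p := by
  classical
  have hoddQ : Odd (Nat.card (G ⧸ K)) := by
    have := K.card_eq_card_quotient_mul_card_subgroup
    rw [this] at hodd
    exact (Nat.odd_mul.mp hodd).1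
  have hcomm : ∀ i j : G ⧸ K, i * j = j * i := by
    intro i j
    obtain ⟨a, rfl⟩ := hv i
    obtain ⟨b, rfl⟩ := hv j
    rw [← pow_add, ← pow_add, add_comm]
  let q : G → G ⧸ K := fun x => (QuotientGroup.mk x : G ⧸ K)
  have qmul : ∀ x y, q (x * y) = q x * q y := fun x y => rfl
  have qinv : ∀ x, q x⁻¹ = (q x)⁻¹ := fun x => rfl
  have hr' : ∀ i, q (r i) = i := hr
  have hc' : ∀ i, q (c i) = i := hc
  let f : G → G := fun x => if x = r (q x) then c (q x * (v * v)) else x * (r (q x))⁻¹ * c (q x)
  have finj : Function.Injective f := by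
    intro x y hxy
    by_cases hx : x = r (q x)
    · by_cases hy : y = r (q y)
      · have : c (q x * (v * v)) = c (q y * (v * v)) := by
          have h := hxy
          simp only [f] at h
          rw [if_pos hx, if_pos hy] at h
          exact h
        have h3 := congrArg q this
        rw [hc', hc'] at h3
        have h4 : q x = q y := mul_right_cancel h3
        rw [hx, hy, h4]
      · exfalso
        have h : c (q x * (v * v)) = y * (r (q y))⁻¹ * c (q y) := by
          have h := hxy
          simp only [f] at h
          rw [if_pos hx, if_neg hy] at h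
          exact h
        have h3 := congrArg q h
        rw [hc', qmul, qmul, qinv, hr', hc', mul_inv_cancel, one_mul] at h3
        rw [h3] at h
        apply hy
        have h5 : y * (r (q y))⁻¹ = 1 := by
          have : c (q y) = (y * (r (q y))⁻¹) * c (q y) := h
          exact (right_eq_mul.mp this)
        exact mul_inv_eq_one.mp h5
    · by_cases hy : y = r (q y)
      · exfalso
        have h : x * (r (q x))⁻¹ * c (q x) = c (q y * (v * v)) := by
          have h := hxy
          simp only [f] at h
          rw [if_neg hx, if_pos hy] at h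
          exact h
        have h3 := congrArg q h
        rw [hc', qmul, qmul, qinv, hr', hc', mul_inv_cancel, one_mul] at h3
        rw [← h3] at h
        apply hx
        have h5 : x * (r (q x))⁻¹ = 1 := by
          have : (x * (r (q x))⁻¹) * c (q x) = c (q x) := h
          exact (mul_eq_right.mp this)
        exact mul_inv_eq_one.mp h5
      · have h : x * (r (q x))⁻¹ * c (q x) = y * (r (q y))⁻¹ * c (q y) := by
          have h := hxy
          simp only [f] at h
          rw [if_neg hx, if_neg hy] at h
          exact h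
        have h3 := congrArg q h
        rw [qmul, qmul, qinv, hr', hc', qmul, qmul, qinv, hr', hc', mul_inv_cancel,
          mul_inv_cancel, one_mul, one_mul] at h3
        rw [h3] at h
        exact mul_right_cancel (mul_right_cancel h)
  have fbij : Function.Bijective f := Finite.injective_iff_bijective.mp finj
  let ψ : G → G := fun x => x * (x * (r (q x))⁻¹ * c (q x))
  have ψinj : Function.Injective ψ := by
    intro x y hxy
    have h : x * (x * (r (q x))⁻¹ * c (q x)) = y * (y * (r (q y))⁻¹ * c (q y)) := hxy
    have h3 := congrArg q h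
    rw [qmul, qmul, qmul, qinv, hr', hc', qmul, qmul, qmul, qinv, hr', hc', mul_inv_cancel,
      mul_inv_cancel, one_mul, one_mul] at h3
    have h4 : q x = q y := sq_inj hoddQ h3
    rw [h4] at h
    rw [← mul_assoc, ← mul_assoc, ← mul_assoc, ← mul_assoc] at h
    exact sq_inj hodd (mul_right_cancel (mul_right_cancel h))
  have ψbij : Function.Bijective ψ := Finite.injective_iff_bijective.mp ψinj
  refine ⟨Equiv.ofBijective f fbij, r v⁻¹ * c v⁻¹, ?_⟩
  intro g
  have hval : ∀ x, (Equiv.ofBijective f fbij) x = f x := fun x => rfl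
  constructor
  · rintro ⟨x, hx⟩ hg
    rw [hval] at hx
    rw [hg] at hx
    by_cases hxr : x = r (q x)
    · have h : x * c (q x * (v * v)) = r v⁻¹ * c v⁻¹ := by
        have h := hx
        simp only [f] at h
        rw [if_pos hxr] at h
        exact h
      have h3 := congrArg q h
      rw [qmul, qmul, hc', hc', hr'] at h3
      have h4 : (q x * v) * (q x * v) = v⁻¹ * v⁻¹ := by
        rw [← h3]
        calc (q x * v) * (q x * v) = q x * (v * q x) * v := by group
          _ = q x * (q x * v) * v := by rw [hcomm v (q x)]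
          _ = q x * (q x * (v * v)) := by group
      have h5 : q x * v = v⁻¹ := sq_inj hoddQ h4
      have h6 : q x = v⁻¹ * v⁻¹ := by
        rw [← h5]; nth_rewrite 2 [h5]; group
      have h7 : q x * (v * v) = 1 := by rw [h6]; group
      rw [h7, hxr, h6] at h
      exact h2 h
    · have h : x * (x * (r (q x))⁻¹ * c (q x)) = r v⁻¹ * c v⁻¹ := by
        have h := hx
        simp only [f] at h
        rw [if_neg hxr] at h
        exact h
      have h3 := congrArg q h
      rw [qmul, qmul, qmul, qinv, hr', hc', qmul, hr', hc', mul_inv_cancel, one_mul] at h3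
      have h4 : q x = v⁻¹ := sq_inj hoddQ h3
      rw [h4] at h
      have h5 : x * x = r v⁻¹ * r v⁻¹ := by
        have h6 : x * (x * (r v⁻¹)⁻¹) = r v⁻¹ := by
          have : x * (x * (r v⁻¹)⁻¹) * c v⁻¹ = r v⁻¹ * c v⁻¹ := by
            rw [← h]; group
          exact mul_right_cancel this
        rw [← mul_assoc] at h6
        exact mul_inv_eq_iff_eq_mul.mp h6
      have h6 : x = r v⁻¹ := sq_inj hodd h5
      apply hxr
      rw [h4]; exact h6
  · intro hg
    obtain ⟨x, hx⟩ := ψbij.2 g
    have hx' : x * (x * (r (q x))⁻¹ * c (q x)) = g := hx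
    by_cases hxr : x = r (q x)
    · have h3 : r (q x) * c (q x) = g := by
        rw [← hx']
        have e : r (q x) = x := hxr.symm
        rw [e]
        group
      have h4 : q x ≠ v⁻¹ := by
        intro h
        apply hg
        rw [← h3, h]
      refine ⟨r (q x * v⁻¹), ?_⟩
      rw [hval]
      have h5 : f (r (q x * v⁻¹)) = c (q x * v) := by
        simp only [f]
        rw [hr', if_pos rfl]
        congr 1
        group
      rw [h5, h1 _ h4, h3]
    · refine ⟨x, ?_⟩
      rw [hval]
      have h5 : f x = x * (r (q x))⁻¹ * c (q x) := by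
        simp only [f]
        rw [if_neg hxr]
      rw [h5, hx']

end Pool.Agent.NearTrans
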