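import Pool.Agent.NearTrans.Section

namespace Pool.Agent.NearTrans

open Subgroup
open scoped commutatorElement

universe u

/-- Extension of a chain from a subgroup by the identity. -/
theorem extend {G : Type*} [Group G] [Finite G] (hodd : Odd (Nat.card G)) (H : Subgroup G)
    (h : ∃ (θ : Equiv.Perm H) (p : H), ∀ g, (∃ x, x * θ x = g) ↔ g ≠ p) :
    ∃ (θ : Equiv.Perm G) (p : G), ∀ g, (∃ x, x * θ x = g) ↔ g ≠ p := by
  classical
  obtain ⟨θ, p, hθ⟩ := h
  have hsq : ∀ x : G, x * x ∈ H → x ∈ H := by
    intro x hx
    obtain ⟨m, hm⟩ := hodd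
    have hu : (x * x) ^ (m + 1) = x := by
      rw [← pow_two, ← pow_mul, show 2 * (m + 1) = (2 * m + 1) + 1 by ring, ← hm, pow_succ,
        pow_card_eq_one', one_mul]
    rw [← hu]
    exact H.pow_mem hx _
  have hsurj : Function.Surjective (fun x : G => x * x) :=
    Finite.injective_iff_surjective.mp (fun x y hxy => sq_inj hodd hxy)
  refine ⟨Equiv.Perm.ofSubtype (p := (· ∈ H)) θ, (p : G), ?_⟩
  intro g
  constructor
  · rintro ⟨x, hx⟩ hg
    by_cases hxH : x ∈ H
    · rw [Equiv.Perm.ofSubtype_apply_of_mem θ hxH, hg] at hx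
      have h1 : (⟨x, hxH⟩ : H) * θ ⟨x, hxH⟩ = p := Subtype.ext hx
      exact (hθ p).mp ⟨_, h1⟩ rfl
    · rw [Equiv.Perm.ofSubtype_apply_of_not_mem θ hxH, hg] at hx
      apply hxH
      apply hsq
      rw [hx]
      exact p.2
  · intro hg
    by_cases hgH : g ∈ H
    · have h1 : (⟨g, hgH⟩ : H) ≠ p := fun h => hg (congrArg Subtype.val h)
      obtain ⟨x, hx⟩ := (hθ _).mpr h1
      refine ⟨x, ?_⟩
      rw [Equiv.Perm.ofSubtype_apply_of_mem θ x.2]
      exact congrArg Subtype.val hx
    · obtain ⟨x, hx⟩ := hsurj g
      have hx' : x * x = g := hx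
      have hxH : x ∉ H := fun h => hgH (hx' ▸ H.mul_mem h h)
      refine ⟨x, ?_⟩
      rw [Equiv.Perm.ofSubtype_apply_of_not_mem θ hxH, hx']

/-- A nonabelian finite group all of whose proper subgroups are abelian is not perfect. -/
theorem not_perfect {G : Type*} [Group G] [Finite G] [Nontrivial G]
    (hmin : ∀ H : Subgroup G, H ≠ ⊤ → ∀ a ∈ H, ∀ b ∈ H, a * b = b * a) :
    commutator G ≠ ⊤ := by
  classical
  intro htop
  by_cases hnorm : ∀ (p : ℕ) (_hp : Fact p.Prime) (P : Sylow p G), (↑P : Subgroup G).Normal
  · have hnil : Group.IsNilpotent G :=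
      (Group.isNilpotent_of_finite_tfae (G := G)).out 3 0 |>.mp hnorm
    have hlt := Group.IsSolvable.commutator_lt_top_of_nontrivial G
    exact (ne_of_lt hlt) htop
  · push Not at hnorm
    obtain ⟨p, hp, P, hP⟩ := hnorm
    have hN : normalizer (P : Set G) ≠ ⊤ := fun h => hP (normalizer_eq_top_iff.mp h)
    have hcen : normalizer (P : Set G) ≤ centralizer (P : Set G) := by
      intro g hg
      rw [mem_centralizer_iff]
      intro h hh
      exact hmin _ hN h (le_normalizer hh) g hg
    have hPne : (P : Subgroup G) ≠ ⊤ := by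
      intro h
      apply hP
      rw [h]
      infer_instance
    have hcomp := MonoidHom.ker_transferSylow_isComplement' P hcen
    have hker : (MonoidHom.transferSylow P hcen).ker = ⊤ := by
      rw [eq_top_iff, ← htop, commutator_def, commutator_le]
      intro a _ b _
      rw [MonoidHom.mem_ker]
      rw [map_commutatorElement]
      rw [commutatorElement_eq_one_iff_mul_comm]
      exact Subtype.ext (hmin _ hPne _ (SetLike.coe_mem _) _ (SetLike.coe_mem _))
    rw [hker] at hcomp
    have hbot : (P : Subgroup G) = ⊥ := by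
      have := hcomp.disjoint
      rw [disjoint_iff, top_inf_eq] at this
      exact this
    apply hP
    rw [hbot]
    infer_instance

/-- Nonabelian groups of odd order have a chain missing exactly one symbol. -/
theorem main : ∀ (n : ℕ) (G : Type u) [Group G] [Finite G], Nat.card G = n → Odd (Nat.card G) →
    (∃ a b : G, a * b ≠ b * a) →
    ∃ (θ : Equiv.Perm G) (p : G), ∀ g, (∃ x, x * θ x = g) ↔ g ≠ p := by
  classical
  intro n
  induction n using Nat.strong_induction_on with
  | _ n ih =>
    intro G _ _ hn hodd hnab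
    by_cases hmin : ∀ H : Subgroup G, H ≠ ⊤ → ∀ a ∈ H, ∀ b ∈ H, a * b = b * a
    · have hnt : Nontrivial G := by
        obtain ⟨a, b, hab⟩ := hnab
        exact ⟨a * b, b * a, hab⟩
      have hperf := not_perfect hmin
      obtain ⟨K, hK, hle⟩ := (eq_top_or_exists_le_coatom (commutator G)).resolve_left hperf
      have hKn : K.Normal := by
        constructor
        intro k hk g
        have h1 : ⁅g, k⁆ ∈ K := hle (by
          rw [_root_.commutator_def]
          exact commutator_mem_commutator (mem_top _) (mem_top _))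
        have h2 : g * k * g⁻¹ = ⁅g, k⁆ * k := by
          rw [commutatorElement_def]; group
        rw [h2]
        exact K.mul_mem h1 hk
      obtain ⟨u, hu⟩ : ∃ u : G, u ∉ K := by
        by_contra h
        push Not at h
        exact hK.1 (eq_top_iff.mpr (fun x _ => h x))
      have hsup : K ⊔ zpowers u = ⊤ := by
        apply hK.2
        refine lt_of_le_of_ne le_sup_left ?_
        intro h
        apply hu
        rw [h]
        exact (le_sup_right : zpowers u ≤ K ⊔ zpowers u) (mem_zpowers u)
      have hKc := hmin K hK.1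
      have hv : ∀ i : G ⧸ K, ∃ n : ℕ, (QuotientGroup.mk u : G ⧸ K) ^ n = i := by
        intro i
        obtain ⟨g, rfl⟩ := QuotientGroup.mk_surjective i
        have hg : g ∈ K ⊔ zpowers u := by rw [hsup]; exact mem_top g
        rw [mem_sup_of_normal_left] at hg
        obtain ⟨k, hk, z, hz, rfl⟩ := hg
        have h1 : (QuotientGroup.mk (k * z) : G ⧸ K) = QuotientGroup.mk z := by
          rw [QuotientGroup.mk_mul, (QuotientGroup.eq_one_iff k).mpr hk, one_mul]
        rw [h1]
        obtain ⟨m, hm⟩ := (mem_powers_iff_mem_zpowers (x := u)).mpr hz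
        exact ⟨m, by rw [← hm]; rfl⟩
      obtain ⟨ρ, hρ, hne⟩ : ∃ ρ ∈ K, ρ * u ≠ u * ρ := by
        by_contra hcon
        push Not at hcon
        obtain ⟨a, b, hab⟩ := hnab
        apply hab
        have hle2 : (⊤ : Subgroup G) ≤ centralizer (K : Set G) := by
          rw [← hsup]
          refine sup_le ?_ ?_
          · intro x hx
            rw [mem_centralizer_iff]
            intro h hh
            exact hKc h hh x hx
          · rw [zpowers_le, mem_centralizer_iff]
            intro h hh
            exact hcon h hh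
        have hKcen : ∀ k ∈ K, ∀ g : G, k * g = g * k := by
          intro k hk g
          exact mem_centralizer_iff.mp (hle2 (mem_top g)) k hk
        have ha : a ∈ K ⊔ zpowers u := by rw [hsup]; exact mem_top a
        have hb : b ∈ K ⊔ zpowers u := by rw [hsup]; exact mem_top b
        rw [mem_sup_of_normal_left] at ha hb
        obtain ⟨k, hk, z, hz, rfl⟩ := ha
        obtain ⟨l, hl, w, hw, rfl⟩ := hb
        have hzw : z * w = w * z := by
          obtain ⟨i, rfl⟩ := mem_zpowers_iff.mp hz
          obtain ⟨j, rfl⟩ := mem_zpowers_iff.mp hw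
          rw [← zpow_add, ← zpow_add, add_comm]
        have c1 : Commute k (l * w) := hKcen k hk _
        have c2 : Commute z (l * w) := by
          have c3 : Commute z l := (hKcen l hl z).symm
          exact c3.mul_right hzw
        exact c1.mul_left c2
      obtain ⟨r, hr, hc⟩ := exists_section hodd K hKc u ρ hρ hne
        (fun h => hu ((QuotientGroup.eq_one_iff u).mp h))
      exact of_holonomy hodd K _ hv r hr hc
    · push Not at hmin
      obtain ⟨H, hH, a, ha, b, hb, hab⟩ := hmin
      apply extend hodd H
      have hlt : Nat.card H < n := by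
        rw [← hn]
        rcases lt_or_eq_of_le H.card_le_card_group with h | h
        · exact h
        · exact absurd (Subgroup.eq_top_of_card_eq H h) hH
      refine ih _ hlt H rfl ?_ ⟨⟨a, ha⟩, ⟨b, hb⟩, fun h => hab (congrArg Subtype.val h)⟩
      exact Odd.of_dvd_nat hodd H.card_subgroup_dvd_card

end Pool.Agent.NearTrans
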