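import Pool.Agent.NearTrans.Core

namespace Pool.Agent.NearTrans

open Subgroup

/-- The recursively defined column sequence. -/
def chat {G Q : Type*} [Group G] [Group Q] (r : Q → G) (v : Q) (n : ℕ) : G :=
  Nat.rec (motive := fun _ => G) 1 (fun k w => (r (v ^ k * v⁻¹))⁻¹ * r (v ^ k) * w) n

theorem chat_zero {G Q : Type*} [Group G] [Group Q] (r : Q → G) (v : Q) : chat r v 0 = 1 := rfl

theorem chat_succ {G Q : Type*} [Group G] [Group Q] (r : Q → G) (v : Q) (n : ℕ) :
    chat r v (n + 1) = (r (v ^ n * v⁻¹))⁻¹ * r (v ^ n) * chat r v n := rfl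

/-- If the holonomy of a section `r` is nontrivial, we get a chain missing exactly one element. -/
theorem of_holonomy {G : Type*} [Group G] [Finite G] (hodd : Odd (Nat.card G)) (K : Subgroup G)
    [K.Normal] (v : G ⧸ K) (hv : ∀ i : G ⧸ K, ∃ n : ℕ, v ^ n = i) (r : G ⧸ K → G)
    (hr : ∀ i, (QuotientGroup.mk (r i) : G ⧸ K) = i)
    (hne : chat r v (orderOf v) ≠ 1) :
    ∃ (θ : Equiv.Perm G) (p : G), ∀ g, (∃ x, x * θ x = g) ↔ g ≠ p := by
  classical
  have hq : 0 < orderOf v := orderOf_pos v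
  have hlt : ∀ i : G ⧸ K, Nat.find (hv i) < orderOf v := by
    intro i
    have h := Nat.find_spec (hv i)
    by_contra hcon
    push Not at hcon
    have h2 : v ^ (Nat.find (hv i) % orderOf v) = i := by rw [pow_mod_orderOf, h]
    have h3 := Nat.find_min' (hv i) h2
    have h4 := Nat.mod_lt (Nat.find (hv i)) hq
    omega
  have hfind : ∀ n < orderOf v, Nat.find (hv (v ^ n)) = n := by
    intro n hn
    have h := Nat.find_spec (hv (v ^ n))
    exact pow_injOn_Iio_orderOf (Set.mem_Iio.mpr (hlt _)) (Set.mem_Iio.mpr hn) h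
  have hvinv : v ^ (orderOf v - 1) = v⁻¹ := by
    have h1 : v ^ (orderOf v - 1) * v = 1 := by
      rw [← pow_succ, Nat.sub_add_cancel hq, pow_orderOf_eq_one]
    exact eq_inv_of_mul_eq_one_left h1
  have hmk : ∀ n, (QuotientGroup.mk (chat r v n) : G ⧸ K) = v ^ n := by
    intro n
    induction n with
    | zero => rw [chat_zero, pow_zero]; rfl
    | succ n ih =>
      rw [chat_succ, QuotientGroup.mk_mul, QuotientGroup.mk_mul, QuotientGroup.mk_inv, hr, hr, ih]
      group
  refine trade hodd K v hv r (fun i => chat r v (Nat.find (hv i))) hr ?_ ?_ ?_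
  · intro i
    rw [hmk]
    exact Nat.find_spec (hv i)
  · intro j hj
    have hn := Nat.find_spec (hv j)
    have hnlt := hlt j
    set n := Nat.find (hv j) with hndef
    have hn1 : n + 1 < orderOf v := by
      rcases Nat.lt_or_ge (n + 1) (orderOf v) with h | h
      · exact h
      · exfalso
        have : n = orderOf v - 1 := by omega
        apply hj
        rw [← hn, this, hvinv]
    have hjv : j * v = v ^ (n + 1) := by rw [pow_succ, hn]
    have h2 : Nat.find (hv (j * v)) = n + 1 := by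
      have : ∀ i, i = v ^ (n+1) → Nat.find (hv i) = n + 1 := by
        rintro i rfl
        exact hfind _ hn1
      exact this _ hjv
    show r (j * v⁻¹) * chat r v (Nat.find (hv (j * v))) = r j * chat r v n
    rw [h2, chat_succ, hn]
    group
  · intro h
    apply hne
    have h1 : Nat.find (hv 1) = 0 := by
      have : ∀ i, i = v ^ 0 → Nat.find (hv i) = 0 := by
        rintro i rfl
        exact hfind _ hq
      exact this _ (pow_zero v).symm
    have h2 : Nat.find (hv v⁻¹) = orderOf v - 1 := by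
      have : ∀ i, i = v ^ (orderOf v - 1) → Nat.find (hv i) = orderOf v - 1 := by
        rintro i rfl
        exact hfind _ (by omega)
      exact this _ hvinv.symm
    have h3 : r (v⁻¹ * v⁻¹) * chat r v (Nat.find (hv 1)) = r v⁻¹ * chat r v (Nat.find (hv v⁻¹)) := h
    rw [h1, h2, chat_zero, mul_one] at h3
    have h4 : orderOf v = (orderOf v - 1) + 1 := by omega
    rw [h4, chat_succ, hvinv, h3]
    group

/-- The holonomy can be made nontrivial. -/
theorem exists_section {G : Type*} [Group G] [Finite G] (hodd : Odd (Nat.card G)) (K : Subgroup G)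
    [K.Normal] (hKc : ∀ a ∈ K, ∀ b ∈ K, a * b = b * a) (u ρ : G) (hρ : ρ ∈ K)
    (hne : ρ * u ≠ u * ρ) (hv1 : (QuotientGroup.mk u : G ⧸ K) ≠ 1) :
    ∃ r : G ⧸ K → G, (∀ i, (QuotientGroup.mk (r i) : G ⧸ K) = i) ∧
      chat r (QuotientGroup.mk u : G ⧸ K) (orderOf (QuotientGroup.mk u : G ⧸ K)) ≠ 1 := by
  classical
  set v : G ⧸ K := QuotientGroup.mk u with hvdef
  have hoddQ : Odd (orderOf v) := by
    have h1 : orderOf v ∣ Nat.card (G ⧸ K) := orderOf_dvd_natCard v
    have := K.card_eq_card_quotient_mul_card_subgroup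
    rw [this] at hodd
    exact Odd.of_dvd_nat (Nat.odd_mul.mp hodd).1 h1
  have hq3 : 3 ≤ orderOf v := by
    have h0 : 0 < orderOf v := orderOf_pos v
    have h1 : orderOf v ≠ 1 := fun h => hv1 (orderOf_eq_one_iff.mp h)
    obtain ⟨m, hm⟩ := hoddQ
    omega
  let r0 : G ⧸ K → G := Quotient.out
  have hr0 : ∀ i, (QuotientGroup.mk (r0 i) : G ⧸ K) = i := fun i => Quotient.out_eq i
  let r1 : G ⧸ K → G := Function.update r0 1 (r0 1 * ρ)
  have hr1 : ∀ i, (QuotientGroup.mk (r1 i) : G ⧸ K) = i := by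
    intro i
    by_cases hi : i = 1
    · subst hi
      simp only [r1, Function.update_self]
      rw [QuotientGroup.mk_mul, hr0, one_mul]
      exact (QuotientGroup.eq_one_iff ρ).mpr hρ
    · simp only [r1, Function.update_of_ne hi]
      exact hr0 i
  have hr1ne : ∀ i, i ≠ 1 → r1 i = r0 i := by
    intro i hi
    simp only [r1, Function.update_of_ne hi]
  have hr11 : r1 1 = r0 1 * ρ := by simp only [r1, Function.update_self]
  set Y : G := (r0 1)⁻¹ * r0 v * (r0 v⁻¹)⁻¹ * r0 1 with hY
  have hpow : ∀ n, 0 < n → n < orderOf v → v ^ n ≠ 1 := by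
    intro n h0 h1 h
    have := orderOf_le_of_pow_eq_one h0 h
    omega
  have hind : ∀ n, 2 ≤ n → n ≤ orderOf v → ∃ F : G, chat r0 v n = F * Y ∧
      chat r1 v n = F * (ρ⁻¹ * Y * ρ) := by
    intro n hn
    induction n, hn using Nat.le_induction with
    | base =>
      intro _
      refine ⟨1, ?_, ?_⟩
      · rw [show (2:ℕ) = 0 + 1 + 1 by norm_num, chat_succ, chat_succ, chat_zero, hY]
        simp only [pow_zero, pow_one, mul_inv_cancel, one_mul, mul_one]
        group
      · rw [show (2:ℕ) = 0 + 1 + 1 by norm_num, chat_succ, chat_succ, chat_zero, hY]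
        simp only [pow_zero, pow_one, mul_inv_cancel, one_mul, mul_one]
        rw [hr11, hr1ne v hv1, hr1ne v⁻¹ (fun h => hv1 (inv_eq_one.mp h))]
        group
    | succ n hn ih =>
      intro hle
      obtain ⟨F, hF0, hF1⟩ := ih (by omega)
      refine ⟨(r0 (v ^ n * v⁻¹))⁻¹ * r0 (v ^ n) * F, ?_, ?_⟩
      · rw [chat_succ, hF0]; group
      · have e1 : v ^ n * v⁻¹ = v ^ (n - 1) := by
          have : v ^ n = v ^ (n - 1) * v := by rw [← pow_succ]; congr 1; omega
          rw [this]; group
        rw [chat_succ, hF1, hr1ne (v ^ n) (hpow n (by omega) (by omega)),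
          hr1ne (v ^ n * v⁻¹) (by rw [e1]; exact hpow _ (by omega) (by omega))]
        group
  obtain ⟨F, hF0, hF1⟩ := hind (orderOf v) (by omega) le_rfl
  by_cases h0 : chat r0 v (orderOf v) = 1
  · refine ⟨r1, hr1, ?_⟩
    intro h1
    rw [hF0] at h0
    rw [hF1] at h1
    have hYρ : Y = ρ⁻¹ * Y * ρ := mul_left_cancel (h0.trans h1.symm)
    have hYρ' : ρ * Y = Y * ρ := by
      nth_rewrite 1 [hYρ]; group
    have hmkY : (QuotientGroup.mk Y : G ⧸ K) = QuotientGroup.mk (u * u) := by
      rw [hY, QuotientGroup.mk_mul, QuotientGroup.mk_mul, QuotientGroup.mk_mul,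
        QuotientGroup.mk_inv, QuotientGroup.mk_inv, hr0, hr0, hr0, QuotientGroup.mk_mul, ← hvdef]
      group
    have hk : (u * u)⁻¹ * Y ∈ K := QuotientGroup.eq.mp hmkY.symm
    have hcomm := hKc ρ hρ _ hk
    have huu : ρ * (u * u) = (u * u) * ρ := by
      have e : u * u = Y * ((u * u)⁻¹ * Y)⁻¹ := by
        rw [mul_inv_rev, inv_inv, mul_inv_cancel_left]
      have c1 : Commute ρ Y := hYρ'
      have c2 : Commute ρ ((u * u)⁻¹ * Y) := hcomm
      have c3 : Commute ρ (Y * ((u * u)⁻¹ * Y)⁻¹) := c1.mul_right c2.inv_right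
      rw [← e] at c3
      exact c3
    obtain ⟨m, hm⟩ := hodd
    have hu : (u * u) ^ (m + 1) = u := by
      rw [← pow_two, ← pow_mul, show 2 * (m + 1) = (2 * m + 1) + 1 by ring, ← hm, pow_succ,
        pow_card_eq_one', one_mul]
    have c4 : Commute ρ ((u * u) ^ (m + 1)) := Commute.pow_right huu _
    rw [hu] at c4
    exact hne c4
  · exact ⟨r0, hr0, h0⟩

end Pool.Agent.NearTrans
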